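import Pool.Agent.W544.PG.Core
import Pool.Agent.W544.PG.Defs4
import Pool.Agent.W557.PG.Ahl

/-!
# Normal form of a skew matrix `r` with `r ^ 3 = r`, `tr r ^ 2 = 2`
-/

open Matrix Finset Module

namespace Pool.Agent.W922.PG

open Pool.Agent.W544.PG

theorem self_neg {a b : Type} (X : Matrix a b ℂ) (h : X = -X) : X = 0 := by
  ext i j
  have h1 : X i j = -X i j := congrFun (congrFun h i) j
  simp only [Matrix.zero_apply]
  linear_combination (1 / 2 : ℂ) * h1

/-- rank factorisation of an idempotent -/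
theorem fac {n k : ℕ} (P : Matrix (Fin n) (Fin n) ℂ) (hP : P * P = P) (ht : P.trace = k) :
    ∃ (A : Matrix (Fin n) (Fin k) ℂ) (B : Matrix (Fin k) (Fin n) ℂ), A * B = P ∧ B * A = 1 := by
  obtain ⟨f, hf⟩ : ∃ f, f = Matrix.toLin' P := ⟨_, rfl⟩
  have hff : f ∘ₗ f = f := by rw [hf, ← Matrix.toLin'_mul, hP]
  have hproj : LinearMap.IsProj (LinearMap.range f) f := by
    refine ⟨fun x => ⟨x, rfl⟩, ?_⟩
    rintro _ ⟨y, rfl⟩
    exact LinearMap.congr_fun hff y
  have htr := hproj.trace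
  have htr2 : LinearMap.trace ℂ _ f = P.trace := by rw [hf, Matrix.trace_toLin'_eq]
  have hk : finrank ℂ (LinearMap.range f) = k := by
    have h : ((finrank ℂ (LinearMap.range f) : ℕ) : ℂ) = (k : ℂ) := by rw [← htr, htr2, ht]
    exact_mod_cast h
  let b : Basis (Fin k) ℂ (LinearMap.range f) := Module.finBasisOfFinrankEq ℂ _ hk
  refine ⟨LinearMap.toMatrix' ((LinearMap.range f).subtype ∘ₗ b.equivFun.symm.toLinearMap),
    LinearMap.toMatrix' (b.equivFun.toLinearMap ∘ₗ f.rangeRestrict), ?_, ?_⟩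
  · rw [← LinearMap.toMatrix'_comp]
    have h : ((LinearMap.range f).subtype ∘ₗ b.equivFun.symm.toLinearMap) ∘ₗ
        (b.equivFun.toLinearMap ∘ₗ f.rangeRestrict) = f := by
      ext x
      simp
    rw [h, hf, LinearMap.toMatrix'_toLin']
  · rw [← LinearMap.toMatrix'_comp]
    have h : (b.equivFun.toLinearMap ∘ₗ f.rangeRestrict) ∘ₗ
        ((LinearMap.range f).subtype ∘ₗ b.equivFun.symm.toLinearMap) = LinearMap.id := by
      apply LinearMap.ext
      intro v
      have h1 : f.rangeRestrict ((b.equivFun.symm v : LinearMap.range f) : Fin n → ℂ)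
          = b.equivFun.symm v := by
        apply Subtype.ext
        exact hproj.map_id _ (b.equivFun.symm v).2
      simp only [LinearMap.comp_apply, LinearEquiv.coe_coe, Submodule.subtype_apply,
        LinearMap.id_apply]
      rw [h1, LinearEquiv.apply_symm_apply]
    rw [h, LinearMap.toMatrix'_id]

/-- symmetric idempotents -/
theorem fac2 {n k : ℕ} (P : Matrix (Fin n) (Fin n) ℂ) (hP : P * P = P) (ht : P.trace = k)
    (hs : Pᵀ = P) :
    ∃ u : Matrix (Fin n) (Fin k) ℂ, u * uᵀ = P ∧ uᵀ * u = 1 := by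
  obtain ⟨A, B, h1, h2⟩ := fac P hP ht
  have hPA : P * A = A := by rw [← h1, Matrix.mul_assoc, h2, Matrix.mul_one]
  have h3 : Aᵀ * A * (B * Bᵀ) = 1 := by
    calc Aᵀ * A * (B * Bᵀ) = Aᵀ * (A * B) * Bᵀ := by simp only [Matrix.mul_assoc]
      _ = Aᵀ * Pᵀ * Bᵀ := by rw [h1, hs]
      _ = (P * A)ᵀ * Bᵀ := by rw [transpose_mul]
      _ = (B * A)ᵀ := by rw [hPA, transpose_mul]
      _ = 1 := by rw [h2, transpose_one]
  have hd : (Aᵀ * A).det ≠ 0 := by
    intro h
    have h4 := congrArg Matrix.det h3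
    rw [det_mul, h, zero_mul, det_one] at h4
    exact zero_ne_one h4
  obtain ⟨g, hg⟩ := Pool.Agent.W557.PG.orth (Aᵀ * A) (by rw [transpose_mul, transpose_transpose]) hd
  have h5 : g * gᵀ = B * Bᵀ := by
    -- `gᵀ` is inverse to `M g`
    have h6 : (Aᵀ * A * g) * gᵀ = 1 := by
      rw [mul_eq_one_comm, ← Matrix.mul_assoc]
      exact hg
    calc g * gᵀ = (B * Bᵀ) * (Aᵀ * A) * (g * gᵀ) := by
          rw [mul_eq_one_comm.1 h3, Matrix.one_mul]
      _ = (B * Bᵀ) * ((Aᵀ * A * g) * gᵀ) := by simp only [Matrix.mul_assoc]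
      _ = B * Bᵀ := by rw [h6, Matrix.mul_one]
  refine ⟨A * g, ?_, ?_⟩
  · calc A * g * (A * g)ᵀ = A * (g * gᵀ) * Aᵀ := by rw [transpose_mul]; simp only [Matrix.mul_assoc]
      _ = (A * B) * (A * B)ᵀ := by rw [h5, transpose_mul]; simp only [Matrix.mul_assoc]
      _ = P := by rw [h1, hs, hP]
  · rw [transpose_mul]
    calc gᵀ * Aᵀ * (A * g) = gᵀ * (Aᵀ * A) * g := by simp only [Matrix.mul_assoc]
      _ = 1 := hg

theorem nrm : S_nrm := by
  intro n q hn r hr h3 ht
  have h4 : r * r * (r * r) = r * r := by rw [← Matrix.mul_assoc, h3]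
  have htr : r.trace = 0 := by
    have h := congrArg Matrix.trace hr
    rw [trace_transpose, trace_neg] at h
    linear_combination (1 / 2 : ℂ) * h
  -- the projections
  obtain ⟨P, hPd⟩ : ∃ P : Matrix (Fin n) (Fin n) ℂ, P = (1 / 2 : ℂ) • (r * r + r) := ⟨_, rfl⟩
  have hPT : Pᵀ = (1 / 2 : ℂ) • (r * r - r) := by
    rw [hPd, transpose_smul, transpose_add, transpose_mul, hr, Matrix.neg_mul, Matrix.mul_neg,
      neg_neg, sub_eq_add_neg]
  have hPP : P * P = P := by
    rw [hPd, smul_mul_smul_comm, Matrix.mul_add, Matrix.add_mul, Matrix.add_mul, h4, h3, ← Matrix.mul_assoc, h3]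
    rw [show r * r + r + (r + r * r) = (2 : ℂ) • (r * r + r) by rw [two_smul]; abel, smul_smul]
    norm_num
  have hPt : P.trace = (1 : ℕ) := by
    rw [hPd, trace_smul, trace_add, ht, htr]
    norm_num
  obtain ⟨e, b, heb, hbe⟩ := fac P hPP hPt
  obtain ⟨S, hSd⟩ : ∃ S : Matrix (Fin n) (Fin n) ℂ, S = 1 - r * r := ⟨_, rfl⟩
  have hSS : S * S = S := by
    rw [hSd, Matrix.mul_sub, Matrix.sub_mul, Matrix.sub_mul, h4]
    simp
  have hST : Sᵀ = S := by
    rw [hSd, transpose_sub, transpose_mul, hr, Matrix.neg_mul, Matrix.mul_neg, neg_neg, transpose_one]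
  have hSt : S.trace = (q : ℕ) := by
    rw [hSd, trace_sub, ht, trace_one, Fintype.card_fin, hn]
    push_cast
    ring
  obtain ⟨u, hu1, hu2⟩ := fac2 S hSS hSt hST
  -- relations
  have hPe : P * e = e := by rw [← heb, Matrix.mul_assoc, hbe, Matrix.mul_one]
  have hre : r * e = e := by
    rw [← hPe, ← Matrix.mul_assoc]
    congr 1
    rw [hPd, mul_smul_comm, Matrix.mul_add, ← Matrix.mul_assoc, h3, add_comm]
  have hPTb : Pᵀ * bᵀ = bᵀ := by
    rw [← transpose_mul]
    congr 1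
    rw [← heb, ← Matrix.mul_assoc, hbe, Matrix.one_mul]
  have hrb : r * bᵀ = -bᵀ := by
    rw [← hPTb, ← Matrix.mul_assoc, ← Matrix.neg_mul]
    congr 1
    rw [hPT, mul_smul_comm, Matrix.mul_sub, ← Matrix.mul_assoc, h3, ← smul_neg, neg_sub]
  have hSu : S * u = u := by rw [← hu1, Matrix.mul_assoc, hu2, Matrix.mul_one]
  have hru : r * u = 0 := by
    rw [← hSu, ← Matrix.mul_assoc, hSd, Matrix.mul_sub, Matrix.mul_one, ← Matrix.mul_assoc, h3, sub_self, Matrix.zero_mul]
  have heT : eᵀ * r = -eᵀ := by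
    have h := congrArg Matrix.transpose hre
    rw [transpose_mul, hr, Matrix.mul_neg] at h
    calc eᵀ * r = -(-(eᵀ * r)) := (neg_neg _).symm
      _ = -eᵀ := by rw [h]
  have hbT : b * r = b := by
    have h := congrArg Matrix.transpose hrb
    rw [transpose_mul, transpose_neg, transpose_transpose, hr, Matrix.mul_neg] at h
    exact neg_injective h
  have huT : uᵀ * r = 0 := by
    have h := congrArg Matrix.transpose hru
    rw [transpose_mul, hr, Matrix.mul_neg, transpose_zero] at h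
    exact neg_eq_zero.1 h
  have hee : eᵀ * e = 0 := by
    have h : eᵀ * e = -(eᵀ * e) := by
      calc eᵀ * e = eᵀ * (r * e) := by rw [hre]
        _ = (eᵀ * r) * e := by rw [Matrix.mul_assoc]
        _ = -(eᵀ * e) := by rw [heT, Matrix.neg_mul]
    exact self_neg _ h
  have heu : eᵀ * u = 0 := by
    have h : -(eᵀ * u) = 0 := by
      calc -(eᵀ * u) = (eᵀ * r) * u := by rw [heT, Matrix.neg_mul]
        _ = 0 := by rw [Matrix.mul_assoc, hru, Matrix.mul_zero]
    exact neg_eq_zero.1 h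
  have heb' : eᵀ * bᵀ = 1 := by rw [← transpose_mul, hbe, transpose_one]
  have hue : uᵀ * e = 0 := by
    calc uᵀ * e = uᵀ * (r * e) := by rw [hre]
      _ = 0 := by rw [← Matrix.mul_assoc, huT, Matrix.zero_mul]
  have hub : uᵀ * bᵀ = 0 := by
    have h : -(uᵀ * bᵀ) = 0 := by
      calc -(uᵀ * bᵀ) = uᵀ * (r * bᵀ) := by rw [hrb, Matrix.mul_neg]
        _ = 0 := by rw [← Matrix.mul_assoc, huT, Matrix.zero_mul]
    exact neg_eq_zero.1 h
  have hbu : b * u = 0 := by
    calc b * u = (b * r) * u := by rw [hbT]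
      _ = 0 := by rw [Matrix.mul_assoc, hru, Matrix.mul_zero]
  have hbb : b * bᵀ = 0 := by
    have h : b * bᵀ = -(b * bᵀ) := by
      calc b * bᵀ = (b * r) * bᵀ := by rw [hbT]
        _ = b * (r * bᵀ) := by rw [Matrix.mul_assoc]
        _ = -(b * bᵀ) := by rw [hrb, Matrix.mul_neg]
    exact self_neg _ h
  have hsum : e * b + (u * uᵀ + bᵀ * eᵀ) = 1 := by
    rw [heb, hu1, ← transpose_mul, heb, hPT, hPd, hSd]
    rw [show (1 / 2 : ℂ) • (r * r + r) + (1 - r * r + (1 / 2 : ℂ) • (r * r - r)) =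
      ((1 / 2 : ℂ) + 1 / 2) • (r * r) + (1 - r * r) by
        rw [smul_add, smul_sub, add_smul]; abel]
    norm_num
  -- assemble
  let g : Matrix (Fin n) (I 1 q) ℂ := fromCols e (fromCols u bᵀ)
  have hgT : gᵀ = fromRows eᵀ (fromRows uᵀ b) := by
    simp only [g, transpose_fromCols, transpose_transpose]
  have hgg : gᵀ * g = B0 1 q := by
    rw [hgT]
    simp only [g, B0]
    rw [fromRows_mul_fromCols, fromRows_mul_fromCols, mul_fromCols, fromRows_mul, hee, heu, heb',
      hue, hbe, hu2, hub, hbu, hbb]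
  have hB : B0 1 q * gᵀ = fromRows b (fromRows uᵀ eᵀ) := by
    rw [hgT]
    unfold B0
    rw [fromBlocks_mul_fromRows, fromCols_mul_fromRows, fromRows_mul, fromBlocks_mul_fromRows]
    simp only [Matrix.zero_mul, Matrix.one_mul, zero_add, add_zero]
    ext i j
    rcases i with i | i | i <;> simp
  refine ⟨g, B0 1 q * gᵀ, ?_, ?_, hgg, ?_⟩
  · rw [hB]
    simp only [g]
    rw [fromCols_mul_fromRows, fromCols_mul_fromRows]
    exact hsum
  · rw [Matrix.mul_assoc, hgg, B0_sq]
  · have h1 : r * g = fromCols e (fromCols 0 (-bᵀ)) := by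
      simp only [g]
      rw [mul_fromCols, mul_fromCols, hre, hru, hrb]
    rw [h1, x0_eq]
    ext i j
    rw [Matrix.mul_diagonal]
    rcases j with j | j | j <;> simp [g]

end Pool.Agent.W922.PG
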